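import Pool.Agent.Lib_helper56.TA.Defs

/-!
# From trees to the left-end dynamics
-/

namespace Pool.Agent.TA

/-- the left end of the interval of the left subtree of the node `v` -/
def lend : Tree → ℕ → ℕ
  | .nil, v => v
  | .node L R, v =>
      if v < L.size then lend L v else if v = L.size then 0 else L.size + 1 + lend R (v - L.size - 1)

theorem lend_lt {L R : Tree} {v : ℕ} (h : v < L.size) : lend (.node L R) v = lend L v := by
  simp [lend, h]

theorem lend_root {L R : Tree} : lend (.node L R) L.size = 0 := by
  simp [lend]

theorem lend_right {L R : Tree} (v : ℕ) :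
    lend (.node L R) (L.size + 1 + v) = L.size + 1 + lend R v := by
  have h1 : ¬ (L.size + 1 + v < L.size) := by omega
  have h2 : ¬ (L.size + 1 + v = L.size) := by omega
  have h3 : L.size + 1 + v - L.size - 1 = v := by omega
  simp only [lend, if_neg h1, if_neg h2, h3]

theorem size_node (L R : Tree) : (Tree.node L R).size = L.size + 1 + R.size := rfl

/-- a node is in the left part, the root, or in the right part -/
theorem tri (a v : ℕ) : v < a ∨ v = a ∨ ∃ w, v = a + 1 + w := by
  rcases Nat.lt_trichotomy v a with h | h | h
  · exact Or.inl h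
  · exact Or.inr (Or.inl h)
  · exact Or.inr (Or.inr ⟨v - a - 1, by omega⟩)

theorem lend_le (T : Tree) : ∀ v, lend T v ≤ v := by
  induction T with
  | nil => intro v; exact le_rfl
  | node L R ihL ihR =>
    intro v
    rcases tri L.size v with h | h | ⟨w, h⟩
    · rw [lend_lt h]; exact ihL v
    · rw [h, lend_root]; omega
    · rw [h, lend_right]; have := ihR w; omega

theorem lend_ge_size (T : Tree) : ∀ v, T.size ≤ v → lend T v = v := by
  induction T with
  | nil => intro v _; rfl
  | node L R ihL ihR =>
    intro v hv
    rw [size_node] at hv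
    obtain ⟨w, rfl⟩ : ∃ w, v = L.size + 1 + w := ⟨v - L.size - 1, by omega⟩
    rw [lend_right, ihR w (by omega)]

theorem lend_lam (T : Tree) : ∀ u v, u < v → lend T v ≤ u → lend T v ≤ lend T u := by
  induction T with
  | nil => intro u v huv h; simp only [lend] at h; omega
  | node L R ihL ihR =>
    intro u v huv h
    rcases tri L.size v with hv | hv | ⟨w, hv⟩
    · rw [lend_lt hv] at h ⊢
      rw [lend_lt (by omega)]
      exact ihL u v huv h
    · rw [hv, lend_root]; omega
    · rw [hv, lend_right] at h ⊢
      obtain ⟨w', rfl⟩ : ∃ w', u = L.size + 1 + w' := ⟨u - L.size - 1, by omega⟩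
      rw [lend_right]
      have := ihR w' w (by omega) (by omega)
      omega

/-- The effect of one right rotation on left ends. -/
theorem RotAt.spec {x : ℕ} {T T' : Tree} (h : RotAt x T T') :
    T'.size = T.size ∧ ∃ p, x < p ∧ p < T.size ∧ lend T p = lend T x ∧
      (∀ u, x < u → u < p → lend T u ≠ lend T x) ∧ lend T' p = x + 1 ∧
      ∀ u, u ≠ p → lend T' u = lend T u := by
  induction h with
  | root A B C =>
    refine ⟨by simp only [size_node]; omega, A.size + 1 + B.size, by omega,
      by simp only [size_node]; omega, ?_, ?_, ?_, ?_⟩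
    · have e1 : lend (.node (.node A B) C) (A.size + 1 + B.size) = 0 :=
        lend_root (L := .node A B)
      rw [e1, lend_lt (by rw [size_node]; omega), lend_root]
    · intro u h1 h2
      obtain ⟨w, rfl⟩ : ∃ w, u = A.size + 1 + w := ⟨u - A.size - 1, by omega⟩
      rw [lend_lt (by rw [size_node]; omega), lend_right, lend_lt (by rw [size_node]; omega),
        lend_root]
      omega
    · rw [lend_right, lend_root]
    · intro u hu
      rcases tri A.size u with h | h | ⟨w, rfl⟩
      · rw [lend_lt h, lend_lt (by rw [size_node]; omega), lend_lt h]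
      · rw [h, lend_root, lend_lt (by rw [size_node]; omega), lend_root]
      · rcases tri B.size w with h | h | ⟨w', rfl⟩
        · rw [lend_right, lend_lt h, lend_lt (by rw [size_node]; omega), lend_right]
        · exact absurd (by rw [h]) hu
        · rw [lend_right, lend_right]
          have e : A.size + 1 + (B.size + 1 + w') = (Tree.node A B).size + 1 + w' := by
            rw [size_node]; omega
          rw [e, lend_right, size_node]; omega
  | @left x L L' R h ih =>
    obtain ⟨hs, p, h1, h2, h3, h4, h5, h6⟩ := ih
    refine ⟨by simp only [size_node]; omega, p, h1, by rw [size_node]; omega, ?_, ?_, ?_, ?_⟩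
    · rw [lend_lt h2, lend_lt (by omega), h3]
    · intro u hu1 hu2
      rw [lend_lt (by omega), lend_lt (by omega)]
      exact h4 u hu1 hu2
    · rw [lend_lt (by omega), h5]
    · intro u hu
      rcases tri L.size u with h | h | ⟨w, rfl⟩
      · rw [lend_lt h, lend_lt (by omega), h6 u hu]
      · rw [h, lend_root, ← hs, lend_root]
      · rw [lend_right]
        rw [← hs, lend_right]
  | @right x R R' L h ih =>
    obtain ⟨hs, p, h1, h2, h3, h4, h5, h6⟩ := ih
    refine ⟨by simp only [size_node]; omega, L.size + 1 + p, by omega, by rw [size_node]; omega,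
      ?_, ?_, ?_, ?_⟩
    · rw [lend_right, lend_right, h3]
    · intro u hu1 hu2
      obtain ⟨w, rfl⟩ : ∃ w, u = L.size + 1 + w := ⟨u - L.size - 1, by omega⟩
      rw [lend_right, lend_right]
      have := h4 w (by omega) (by omega)
      omega
    · rw [lend_right, h5]; omega
    · intro u hu
      rcases tri L.size u with h | h | ⟨w, rfl⟩
      · rw [lend_lt h, lend_lt h]
      · rw [h, lend_root, lend_root]
      · rw [lend_right, lend_right, h6 w (by omega)]

/-- If `x` is a left child, it can be rotated. -/
theorem RotAt.exists_of (T : Tree) : ∀ x v, x < T.size → x < v → lend T v = lend T x →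
    ∃ T', RotAt x T T' := by
  induction T with
  | nil => intro x v hx; exact absurd hx (Nat.not_lt_zero x)
  | node L R ihL ihR =>
    intro x v hx hxv he
    rcases tri L.size v with hv | hv | ⟨w, rfl⟩
    · rw [lend_lt hv, lend_lt (by omega)] at he
      obtain ⟨L', h⟩ := ihL x v (by omega) hxv he
      exact ⟨_, RotAt.left R h⟩
    · -- v is the root, x on the left spine of L
      rw [hv, lend_root, lend_lt (by omega)] at he
      cases L with
      | nil => rw [hv] at hxv; exact absurd hxv (Nat.not_lt_zero x)
      | node A B =>
        rcases tri A.size x with h | h | ⟨w, rfl⟩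
        · obtain ⟨L', h'⟩ := ihL x A.size (by rw [size_node]; omega) h (by rw [lend_root, ← he])
          exact ⟨_, RotAt.left R h'⟩
        · rw [h]; exact ⟨_, RotAt.root A B R⟩
        · rw [lend_right] at he; omega
    · rw [lend_right] at he
      have h1 := lend_le (.node L R) x
      obtain ⟨w', rfl⟩ : ∃ w', x = L.size + 1 + w' := ⟨x - L.size - 1, by omega⟩
      rw [lend_right] at he
      rw [size_node] at hx
      obtain ⟨R', h⟩ := ihR w' w (by omega) (by omega) (by omega)
      exact ⟨_, RotAt.right L h⟩

/-- The effect of an ascent on left ends. -/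
theorem Ascent.spec {T T' : Tree} (h : Ascent T T') :
    T'.size = T.size ∧ ∃ x, (Op.asc x).Step T.size (lend T) (lend T') := by
  obtain ⟨x, hx, hr, hend⟩ := h
  have key : T'.size = T.size ∧ (∀ v, (v ≤ x ∨ lend T v ≠ lend T x) → lend T' v = lend T v) ∧
      ∀ v, x < v → lend T v = lend T x → (lend T' v = lend T x ∨ lend T' v = x + 1) := by
    clear hend
    induction hr with
    | refl => exact ⟨rfl, fun _ _ => rfl, fun v _ h => Or.inl h⟩
    | @tail T₁ T₂ _ hrot ih =>
      obtain ⟨hs, h1, h2⟩ := ih
      obtain ⟨hs', p, p1, p2, p3, _, p5, p6⟩ := hrot.spec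
      have hxx : lend T₁ x = lend T x := h1 x (Or.inl le_rfl)
      have hp : lend T p = lend T x := by
        by_contra hne
        have := h1 p (Or.inr hne)
        rw [p3, hxx] at this
        exact hne this.symm
      refine ⟨hs'.trans hs, fun v hv => ?_, fun v hv hv' => ?_⟩
      · have hvp : v ≠ p := by
          rintro rfl
          rcases hv with h | h
          · omega
          · exact h hp
        rw [p6 v hvp, h1 v hv]
      · by_cases hvp : v = p
        · right; rw [hvp, p5]
        · rw [p6 v hvp]; exact h2 v hv hv'
  obtain ⟨hs, h1, h2⟩ := key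
  refine ⟨hs, x, hx, fun v hv hv' => ?_, h1⟩
  rcases h2 v hv hv' with h | h
  · exfalso
    have hxx : lend T' x = lend T x := h1 x (Or.inl le_rfl)
    obtain ⟨T'', h''⟩ := RotAt.exists_of T' x v (by rw [hs]; exact hx) hv (by rw [h, hxx])
    exact hend T'' h''
  · exact h

/-- The effect of a 2-turn on left ends. -/
theorem TwoTurn.spec {T T' : Tree} (h : TwoTurn T T') :
    T'.size = T.size ∧ ∃ x y z, (Op.turn x y z).Step T.size (lend T) (lend T') := by
  induction h with
  | root A B C D =>
    have ex : lend (.node (.node (.node A B) C) D) A.size = 0 := by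
      have h1 : A.size < (Tree.node (.node A B) C).size := by simp only [size_node]; omega
      have h2 : A.size < (Tree.node A B).size := by simp only [size_node]; omega
      rw [lend_lt h1, lend_lt h2, lend_root]
    have ey : lend (.node (.node (.node A B) C) D) (A.size + 1 + B.size) = 0 := by
      have h1 : A.size + 1 + B.size < (Tree.node (.node A B) C).size := by
        simp only [size_node]; omega
      rw [lend_lt h1]
      exact lend_root (L := .node A B)
    have ez : lend (.node (.node (.node A B) C) D) (A.size + 1 + B.size + 1 + C.size) = 0 :=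
      lend_root (L := .node (.node A B) C)
    refine ⟨by simp only [size_node]; omega, A.size, A.size + 1 + B.size,
      A.size + 1 + B.size + 1 + C.size, by omega, by omega, by simp only [size_node]; omega,
      by rw [ex, ey], by rw [ex, ez], ?_, ?_, ?_, ?_, ?_⟩
    · intro u h1 h2
      obtain ⟨w, rfl⟩ : ∃ w, u = A.size + 1 + w := ⟨u - A.size - 1, by omega⟩
      have h3 : A.size + 1 + w < (Tree.node (.node A B) C).size := by
        simp only [size_node]; omega
      have h4 : A.size + 1 + w < (Tree.node A B).size := by simp only [size_node]; omega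
      rw [ex, lend_lt h3, lend_lt h4, lend_right]
      omega
    · intro u h1 h2
      obtain ⟨w, rfl⟩ : ∃ w, u = (Tree.node A B).size + 1 + w :=
        ⟨u - (Tree.node A B).size - 1, by rw [size_node]; omega⟩
      have h3 : (Tree.node A B).size + 1 + w < (Tree.node (.node A B) C).size := by
        rw [size_node] at h1 h2
        simp only [size_node]; omega
      rw [ex, lend_lt h3, lend_right]
      omega
    · rw [lend_right, lend_root]
    · have e : A.size + 1 + B.size + 1 + C.size = A.size + 1 + (B.size + 1 + C.size) := by omega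
      rw [e, lend_right, lend_right, lend_root]; omega
    · intro u hu1 hu2
      rcases tri A.size u with h | h | ⟨w, rfl⟩
      · rw [lend_lt h, lend_lt (by simp only [size_node]; omega),
          lend_lt (by simp only [size_node]; omega), lend_lt h]
      · rw [h, lend_root, lend_lt (by simp only [size_node]; omega),
          lend_lt (by simp only [size_node]; omega), lend_root]
      · rcases tri B.size w with h | h | ⟨w', rfl⟩
        · rw [lend_right, lend_lt h, lend_lt (by simp only [size_node]; omega),
            lend_lt (by simp only [size_node]; omega), lend_right]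
        · exact absurd (by rw [h]) hu1
        · rcases tri C.size w' with h | h | ⟨w'', rfl⟩
          · rw [lend_right, lend_right, lend_lt h]
            have e : A.size + 1 + (B.size + 1 + w') = (Tree.node A B).size + 1 + w' := by
              rw [size_node]; omega
            rw [e, lend_lt (by simp only [size_node]; omega), lend_right, size_node]; omega
          · exact absurd (by rw [h]; omega) hu2
          · rw [lend_right, lend_right, lend_right]
            have e : A.size + 1 + (B.size + 1 + (C.size + 1 + w'')) =
                (Tree.node (Tree.node A B) C).size + 1 + w'' := by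
              simp only [size_node]; omega
            rw [e, lend_right]; simp only [size_node]; omega
  | @left L L' R h ih =>
    obtain ⟨hs, x, y, z, h1, h2, h3, h4, h5, h6, h7, h8, h9, h10⟩ := ih
    refine ⟨by simp only [size_node]; omega, x, y, z, h1, h2, by rw [size_node]; omega,
      ?_, ?_, ?_, ?_, ?_, ?_, ?_⟩
    · rw [lend_lt (by omega), lend_lt (by omega), h4]
    · rw [lend_lt (by omega), lend_lt (by omega), h5]
    · intro u hu1 hu2
      rw [lend_lt (by omega), lend_lt (by omega)]; exact h6 u hu1 hu2
    · intro u hu1 hu2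
      rw [lend_lt (by omega), lend_lt (by omega)]; exact h7 u hu1 hu2
    · rw [lend_lt (by omega), h8]
    · rw [lend_lt (by omega), h9]
    · intro u hu1 hu2
      rcases tri L.size u with h | h | ⟨w, rfl⟩
      · rw [lend_lt h, lend_lt (by omega), h10 u hu1 hu2]
      · rw [h, lend_root, ← hs, lend_root]
      · rw [lend_right]
        rw [← hs, lend_right]
  | @right R R' L h ih =>
    obtain ⟨hs, x, y, z, h1, h2, h3, h4, h5, h6, h7, h8, h9, h10⟩ := ih
    refine ⟨by simp only [size_node]; omega, L.size + 1 + x, L.size + 1 + y, L.size + 1 + z,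
      by omega, by omega, by rw [size_node]; omega, ?_, ?_, ?_, ?_, ?_, ?_, ?_⟩
    · rw [lend_right, lend_right, h4]
    · rw [lend_right, lend_right, h5]
    · intro u hu1 hu2
      obtain ⟨w, rfl⟩ : ∃ w, u = L.size + 1 + w := ⟨u - L.size - 1, by omega⟩
      rw [lend_right, lend_right]
      have := h6 w (by omega) (by omega)
      omega
    · intro u hu1 hu2
      obtain ⟨w, rfl⟩ : ∃ w, u = L.size + 1 + w := ⟨u - L.size - 1, by omega⟩
      rw [lend_right, lend_right]
      have := h7 w (by omega) (by omega)
      omega
    · rw [lend_right, h8]; omega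
    · rw [lend_right, h9]; omega
    · intro u hu1 hu2
      rcases tri L.size u with h | h | ⟨w, rfl⟩
      · rw [lend_lt h, lend_lt h]
      · rw [h, lend_root, lend_root]
      · rw [lend_right, lend_right, h10 w (by omega) (by omega)]

/-- A right 2-turn consists of two right rotations. -/
theorem TwoTurn.rotations {T T' : Tree} (h : TwoTurn T T') :
    ∃ x y T₁, x < y ∧ RotAt y T T₁ ∧ RotAt x T₁ T' := by
  induction h with
  | root A B C D =>
    exact ⟨A.size, (Tree.node A B).size, .node (.node A B) (.node C D), by rw [size_node]; omega,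
      RotAt.root (.node A B) C D, RotAt.root A B (.node C D)⟩
  | left R _ ih =>
    obtain ⟨x, y, T₁, h1, h2, h3⟩ := ih
    exact ⟨x, y, _, h1, RotAt.left R h2, RotAt.left R h3⟩
  | @right _ _ L _ ih =>
    obtain ⟨x, y, T₁, h1, h2, h3⟩ := ih
    exact ⟨L.size + 1 + x, L.size + 1 + y, _, by omega, RotAt.right L h2, RotAt.right L h3⟩

/-- Extending a dynamics by one operation. -/
def Dyn.snoc {n : ℕ} (D : Dyn n) (T' : Tree) (o : Op) (h : o.Step n (D.l D.M) (lend T')) : Dyn n where
  M := D.M + 1
  l := fun t => if t ≤ D.M then D.l t else lend T'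
  op := fun t => if t < D.M then D.op t else o
  le_self := fun t v => by
    by_cases ht : t ≤ D.M
    · rw [if_pos ht]; exact D.le_self t v
    · rw [if_neg ht]; exact lend_le T' v
  lam := fun t u v huv h1 => by
    by_cases ht : t ≤ D.M
    · rw [if_pos ht] at h1 ⊢; exact D.lam t u v huv h1
    · rw [if_neg ht] at h1 ⊢; exact lend_lam T' u v huv h1
  step := fun t ht => by
    by_cases h1 : t < D.M
    · rw [if_pos h1, if_pos (by omega), if_pos (by omega)]
      exact D.step t h1
    · have h2 : t = D.M := by omega
      rw [if_neg h1, if_pos (by omega), if_neg (by omega), h2]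
      exact h

theorem Dyn.snoc_last {n : ℕ} (D : Dyn n) (T' : Tree) (o : Op)
    (h : o.Step n (D.l D.M) (lend T')) : (D.snoc T' o h).l (D.snoc T' o h).M = lend T' := by
  change (if D.M + 1 ≤ D.M then D.l (D.M + 1) else lend T') = lend T'
  rw [if_neg (by omega)]

theorem Dyn.snoc_count {n : ℕ} (D : Dyn n) (T' : Tree) (o : Op)
    (h : o.Step n (D.l D.M) (lend T')) (b : Bool) :
    ((Finset.range (D.snoc T' o h).M).filter (fun t => ((D.snoc T' o h).op t).isTurn = b)).card =
      ((Finset.range D.M).filter (fun t => (D.op t).isTurn = b)).card +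
        (if o.isTurn = b then 1 else 0) := by
  have hM : (D.snoc T' o h).M = D.M + 1 := rfl
  have hop : ∀ t, (D.snoc T' o h).op t = if t < D.M then D.op t else o := fun _ => rfl
  rw [hM, Finset.range_add_one, Finset.filter_insert]
  have e1 : (Finset.range D.M).filter (fun t => ((D.snoc T' o h).op t).isTurn = b) =
      (Finset.range D.M).filter (fun t => (D.op t).isTurn = b) := by
    apply Finset.filter_congr
    intro t ht
    rw [hop, if_pos (Finset.mem_range.1 ht)]
  have e2 : (D.snoc T' o h).op D.M = o := by rw [hop, if_neg (lt_irrefl _)]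
  rw [e1, e2]
  by_cases hb : o.isTurn = b
  · rw [if_pos hb, if_pos hb, Finset.card_insert_of_notMem (by simp)]
  · rw [if_neg hb, if_neg hb, add_zero]

/-- The dynamics with no operation. -/
def Dyn.start (T : Tree) : Dyn T.size where
  M := 0
  l := fun _ => lend T
  op := fun _ => Op.asc 0
  le_self := fun _ v => lend_le T v
  lam := fun _ u v => lend_lam T u v
  step := fun t ht => absurd ht (Nat.not_lt_zero t)

theorem Run.exists_dyn_aux {T T' : Tree} {N r : ℕ} (h : Run T N r T') :
    T'.size = T.size ∧ ∃ D : Dyn T.size, D.numTurns = N ∧ D.numAscs = r ∧ D.l D.M = lend T' := by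
  induction h with
  | refl =>
    exact ⟨rfl, Dyn.start T, rfl, rfl, rfl⟩
  | @turn N r T₁ T₂ _ h' ih =>
    obtain ⟨hs, D, hN, hr, hl⟩ := ih
    obtain ⟨hs', x, y, z, hstep⟩ := h'.spec
    rw [hs, ← hl] at hstep
    refine ⟨hs'.trans hs, D.snoc T₂ (Op.turn x y z) hstep, ?_, ?_, D.snoc_last _ _ _⟩
    · have := D.snoc_count T₂ (Op.turn x y z) hstep true
      rw [← hN]; exact this
    · have := D.snoc_count T₂ (Op.turn x y z) hstep false
      rw [← hr]; exact this
  | @ascent N r T₁ T₂ _ h' ih =>
    obtain ⟨hs, D, hN, hr, hl⟩ := ih
    obtain ⟨hs', x, hstep⟩ := h'.spec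
    rw [hs, ← hl] at hstep
    refine ⟨hs'.trans hs, D.snoc T₂ (Op.asc x) hstep, ?_, ?_, D.snoc_last _ _ _⟩
    · have := D.snoc_count T₂ (Op.asc x) hstep true
      rw [← hN]; exact this
    · have := D.snoc_count T₂ (Op.asc x) hstep false
      rw [← hr]; exact this

/-- Every run of right 2-turns and right ascents gives a left-end dynamics. -/
theorem Run.exists_dyn {T T' : Tree} {N r : ℕ} (h : Run T N r T') :
    ∃ D : Dyn T.size, D.numTurns = N ∧ D.numAscs = r := by
  obtain ⟨_, D, h1, h2, _⟩ := h.exists_dyn_aux
  exact ⟨D, h1, h2⟩

end Pool.Agent.TA
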